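import Mathlib
import Pool.Agent.Run7.h407.LL.Defs

/-!
Definitions for the Navier-Stokes equations projected on spaces with scalar constraints which are
supported in a given set (continuation of LL/Defs).
-/

namespace Pool.Agent.Run7.h407.LN

open Set Filter Topology MeasureTheory Run7.h407.LL
open scoped ContDiff

/-- The union of the support of the field `U` and the ball `|x - z| ≤ ε`. -/
def region (U : E3 → E3) (z : E3) (ε : ℝ) : Set E3 := tsupport U ∪ {x | dst x z ≤ ε}

/-- The field vanishes outside the set `K`. -/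
def ZeroOff (K : Set E3) (v : E3 → E3) : Prop := ∀ x, x ∉ K → v x = 0

/-- The modes `p n` and the constraint fields `g n i`: `p 0 = U`; the modes are smooth compactly
supported divergence-free fields, none of them zero, mutually orthogonal in `L²` and for the
Dirichlet form; the constraint fields are smooth, compactly supported, and vanish near `z`; all
modes and constraint fields vanish outside `K`; for `n ≥ 3` both are the universal ones with the
index `n + k`, translated to the point `z`; and all square integrable divergence-free fields which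
satisfy the constraints form an admissible space (the largest one). -/
structure IsFamily (K : Set E3) (P : ℕ → E3 → E3) (G : ℕ → Fin 3 → E3 → E3) (k : ℕ) (z : E3)
    (U : E3 → E3) (p : ℕ → E3 → E3) (g : ℕ → Fin 3 → E3 → E3) : Prop where
  first : p 0 = U
  mode : ∀ n, IsTestField (p n) ∧ 0 < innerL2 (p n) (p n) ∧ ZeroOff K (p n)
  orthogonal : ∀ m n, m ≠ n → innerL2 (p m) (p n) = 0 ∧ dirichlet (p m) (p n) = 0
  field : ∀ n i, SmoothCompact (g n i) ∧ VanishesNear z (g n i) ∧ ZeroOff K (g n i)
  universal : ∀ n ≥ 3, p n = shift z (P (n + k)) ∧ ∀ i, g n i = shift z (G (n + k) i)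
  largest : IsSpace p g {w | IsSolenoidal w ∧ Constrained g w}

/-- Blow-up at `z` from the datum `v` before the time `T₀`, at viscosity `ν`: there are `T ≤ T₀`
and a field `u` on `[0,T)` with `u(0) = v`, which vanishes outside `K`, with
`|u(t,x)| ≤ C |x - z|^(3-4q)`, whose `L³` norm and supremum tend to infinity as `t → T`, and which
solves the equations projected on `W` for all admissible spaces `W` at once. For each of these
spaces every solution with the datum `v` is a restriction of `u`, in particular none exists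
beyond `T`; and every Leray-Hopf solution with the datum `v` coincides with `u` on `[0,T)`. -/
def BlowsUp (K : Set E3) (q : ℝ) (z : E3) (p : ℕ → E3 → E3) (g : ℕ → Fin 3 → E3 → E3) (ν : ℝ)
    (v : E3 → E3) (T₀ : ℝ) : Prop :=
  ∃ T, 0 < T ∧ T ≤ T₀ ∧ ∃ u : ℝ → E3 → E3, u 0 = v ∧ (∀ t ∈ Ico 0 T, ZeroOff K (u t)) ∧
    (∃ C, ∀ t ∈ Ico 0 T, ∀ x, mag (u t x) * dst x z ^ (4 * q - 3) ≤ C) ∧
    Tendsto (fun t => total fun x => mag (u t x) ^ 3) (𝓝[<] T) atTop ∧
    (∀ M, ∀ᶠ t in 𝓝[<] T, ∃ x, M < mag (u t x)) ∧
    ∀ W : Set (E3 → E3), IsSpace p g W → IsProjected W ν T u ∧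
      (∀ (T' : ℝ) (w : ℝ → E3 → E3), IsProjected W ν T' w → w 0 = v →
        T' ≤ T ∧ ∀ t ∈ Ico 0 T', w t = u t) ∧
      ∀ (T' : ℝ) (w : ℝ → E3 → E3), IsLerayHopf W ν T' w → AEEq (w 0) v →
        ∀ t ∈ Ico 0 T', t < T → AEEq (w t) (u t)

end Pool.Agent.Run7.h407.LN
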