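import Mathlib
import Pool.Agent.Run7.h407.LL.Brg
import Pool.Agent.Run7.h407.LN.Defs
import Pool.Agent.Run7.h407.LN.Loc

/-!
The blow-up theorem in terms of the definitions of LL/Defs and LN/Defs, with all constraint fields
supported in the union of the support of the datum and a small ball.
-/

namespace Pool.Agent.Run7.h407.LN

open Set Filter Topology MeasureTheory
open scoped ContDiff
open Run7.h407.LL (E3 IsUniversal IsSpace IsTestField IsSteady VanishesNear InBall total mag scale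
  plus IsProjected IsLerayHopf divergence innerL2 dirichlet)

open Pool.Agent.Run7.h407.G.X in
theorem family_of {q : ℝ} {P : ℕ → E3 → E3} {G : ℕ → Fin 3 → E3 → E3} {k : ℕ} {z : E3}
    {K : Set E3} {U : E3 → E3} {p : ℕ → E3 → E3} {g : ℕ → Fin 3 → E3 → E3}
    (h : Fam q z U p g) (hs : C980.Sup (fun x => x ∈ K) z p g) (ht : Tail P G k z p g) :
    IsFamily K P G k z U p g := by
  have h1 := LL.family_of h ht
  exact ⟨h1.first, fun n => ⟨(h1.mode n).1, (h1.mode n).2, fun x hx => hs.mode n x hx⟩,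
    h1.orthogonal, fun n i => ⟨(h1.field n i).1, (h1.field n i).2, fun x hx => hs.field n i x hx⟩,
    h1.universal, h1.largest⟩

open Pool.Agent.Run7.h407 Pool.Agent.Run7.h407.G.X in
theorem blowsUp_of {q ρ ν T₀ : ℝ} (hν : 0 ≤ ν) {z : E3} {K : Set E3} {U : E3 → E3}
    {p : ℕ → E3 → E3} {g : ℕ → Fin 3 → E3 → E3} {v : E3 → E3} (hF : Fam q z U p g)
    (hs : C980.Sup (fun x => x ∈ K) z p g) (h : Blo (4 * (q - 1)) z ρ p g ν v T₀) :
    BlowsUp K q z p g ν v T₀ := by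
  obtain ⟨T, hT, hTA, u, k1, k2, k3, k4, k5, k6⟩ := h
  rw [show 1 + 4 * (q - 1) = 4 * q - 3 by ring] at k3
  obtain ⟨Wm, hWm, hWi⟩ := hF.big
  have hm := (k6 _ (h980.BD.isSpG_sum hWm)).1
  have hu0 : ∀ t ∈ Ico 0 T, ZeroOff K (u t) := by
    intro t ht x hx
    obtain ⟨c, hc⟩ := (hm.mem t ht).2
    have h1 := hc x
    have h2 : (fun n => c n • p n x) = fun _ => 0 := by
      funext n
      rw [hs.mode n x hx, smul_zero]
    rw [h2] at h1
    exact h1.unique hasSum_zero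
  refine ⟨T, hT, hTA, u, k1, hu0, k3, k4, k5, fun W hW => ?_⟩
  have hs := hW.spg
  obtain ⟨k7, k8⟩ := k6 hW.sub hs
  refine ⟨(LL.proj_iff hW).2 k7, fun T' w hw h0 => k8 T' w ((LL.proj_iff hW).1 hw) h0,
    fun T' w hw h0 => ?_⟩
  have hu : TF T (ρ + ‖z‖) u := by
    refine ⟨k7.cls.sm, fun t ht x hx => k2 t ht x ?_⟩
    have := norm_sub_norm_le x z
    linarith
  apply LH.lh_unique hν hu hs.l2 hs.wdf k7.mem k7.eqn ((LL.lerayHopf_iff hW).1 hw)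
  filter_upwards [h0] with x hx
  rw [hx, k1]

theorem main (q : ℝ) (hq : 1 < q) (hq' : q < 5 / 4) :
    ∃ (P : ℕ → E3 → E3) (G : ℕ → Fin 3 → E3 → E3), IsUniversal q P G ∧
    (∀ (U : E3 → E3) (z : E3) (ε : ℝ), IsTestField U → 0 < ε →
      (¬ IsSteady U → VanishesNear z U → ∃ k₀ : ℕ, ∀ k ≥ k₀,
        ∃ (p : ℕ → E3 → E3) (g : ℕ → Fin 3 → E3 → E3),
        IsFamily (region U z ε) P G k z U p g ∧
        ∃ A₀ > 0, ∀ ν ≥ 0, ∀ a > 0, A₀ * ν ≤ a →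
          BlowsUp (region U z ε) q z p g ν (scale a U) (A₀ / a)) ∧
      (∀ r N : ℝ, 0 < r → r < 3 → q ≤ 1 + (3 - r) / 8 → ∃ k₀ : ℕ, ∀ k ≥ k₀,
        ∃ F : E3 → E3, IsTestField F ∧ InBall z ε F ∧ total (fun x => mag (F x) ^ r) ≤ ε ∧
        ∃ (p : ℕ → E3 → E3) (g : ℕ → Fin 3 → E3 → E3),
        IsFamily (region U z ε) P G k z (plus U F) p g ∧
          ∀ ν, 0 ≤ ν → ν ≤ N → BlowsUp (region U z ε) q z p g ν (plus U F) ε)) ∧
    (∀ (p : ℕ → E3 → E3) (g : ℕ → Fin 3 → E3 → E3) (W : Set (E3 → E3)),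
      IsSpace p g W → ∀ (ν T : ℝ) (w : ℝ → E3 → E3), IsProjected W ν T w →
        IsLerayHopf W ν T w ∧ ∀ t ∈ Ico 0 T, (∀ x, divergence (w t) x = 0) ∧
          innerL2 (w t) (w t) + 2 * ν * ∫ s in (0 : ℝ)..t, dirichlet (w s) (w s)
            = innerL2 (w 0) (w 0)) := by
  obtain ⟨X, M⟩ := G.X.exists_mst hq hq'
  have hδ : 0 ≤ 1 + 4 * (q - 1) := by linarith
  have hη : 0 < 2 * (1 + 4 * (q - 1)) - q * (4 * q - 2) := by nlinarith
  refine ⟨_, _, LL.universal_of M.uf, fun U z ε hU hε => ⟨fun hUs hz => ?_,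
    fun r N hr hr3 hqr => ?_⟩, fun p g W hW ν T w hw => ⟨?_, fun t ht => ?_⟩⟩
  · obtain ⟨k₀, hk₀⟩ := G.X.DDu.mainAU1 M hq' hδ hη ⟨hU.1.1, hU.1.2⟩ hU.2
      (LL.om_of_not_steady hUs) (LL.vanishes_iff.1 hz) hε
    refine ⟨k₀, fun k hk => ?_⟩
    obtain ⟨p, g, _, h1, hs, h2, A₀, hA, H⟩ := hk₀ k hk
    have hs' : G.X.C980.Sup (fun x => x ∈ region U z ε) z p g := by
      apply hs.mono
      rintro x (hx | hx)
      · exact Or.inl hx
      · exact Or.inr (G.X.LNu.CC_norm hx)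
    exact ⟨p, g, family_of h1 hs' h2, A₀, hA,
      fun ν hν a ha haν => blowsUp_of hν h1 hs' (H ν hν a ha haν)⟩
  · obtain ⟨k₀, hk₀⟩ := G.X.LNu.mainBzU1 M hq' hδ hη ⟨hU.1.1, hU.1.2⟩ hU.2 z (N := N)
      hr hr3 hqr hε
    refine ⟨k₀, fun k hk => ?_⟩
    obtain ⟨F, h1, h2, h3, h4, p, g, _, h5, hs, h6, h7⟩ := hk₀ k hk
    have hs' : G.X.C980.Sup (fun x => x ∈ region U z ε) z p g := hs.mono fun x hx => hx
    exact ⟨F, ⟨⟨h1.sm, h1.cs⟩, h2⟩, LL.inBall_iff.2 h3, h4, p, g, family_of h5 hs' h6,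
      fun ν h8 h9 => blowsUp_of h8 h5 hs' (h7 ν h8 h9)⟩
  · exact (LL.lerayHopf_iff hW).2 (LH.lh_of_proj ((LL.proj_iff hW).1 hw) hW.spg.wdf)
  · exact ⟨G.IsProj.dvgG hW.spg ((LL.proj_iff hW).1 hw) ht,
      G.IsProj.energyG hW.spg ((LL.proj_iff hW).1 hw) ht⟩

end Pool.Agent.Run7.h407.LN
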